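import Pool.Agent.TH526.ZL.J

/-!
# MP_e573c6_ag: curves in products of modular curves which meet no special subvariety of codimension
at least two: a criterion at four places

The Shimura variety `Y(1)^n` is identified with `ℂ^n` by the elliptic modular function
`jj = j = E₄³ / Δ`. A product `𝒳 = Y_1 × … × Y_n` of modular curves of any levels is finite over it,
and a special subvariety of `𝒳` of codimension at least two lies over one of `Y(1)^n`.

**Setting.** Let `Λ ⊆ ℂ` be a ring, and let `s_i` be functions integral over `Λ[j]`,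
`R_i (s_i, j) = 0` with `R_i` monic in the first variable, for instance modular functions of any
level without poles in the upper half plane (level one: `R_i = S - J`, `s_i = j`). Let `C ⊂ 𝒳` be a
curve, and `c_i ∈ Λ`. Any two of the functions `u_i = c_i s_i` satisfy an equation on `C`, and we
suppose that for all pairs `J = {i, i'}` such an equation `G_J (u_i, u_i') = 0` is given, with
coefficients in `Λ`. Let `d_J` be bounds for its degrees. The four *corner coefficients* are the
coefficients of `1`, `u_i^d`, `u_i'^d'` and `u_i^d u_i'^d'`. They are not zero if and only if the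
curve in `P^1 × P^1` given by the equation (made homogeneous with the degrees `d`, `d'`) does not
contain a point with both coordinates equal to `0` or `∞`. We regard the set `curve` of all points
of `Y(1)^n` over which there are numbers `s_i` satisfying these equations; it contains the image of
`C`. An example are the curves of all points `(g_1 (v) / c_1, …, g_n (v) / c_n)` in `Y(1)^n`, where
the `g_i` are Möbius transformations with `2 n` different zeros and poles.

**1. Criterion.** Suppose that there are four good places: homomorphisms `red` from `Λ` to fields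
(reductions modulo prime ideals) such that the corner coefficients and the non-zero
coefficients of the `R_i` do not reduce to `0`, and `c_i` has the exact order `e_{l i} > 0` at the
`l`-th place, where `q e_{l i} e_{l j} e_{l' i} e_{l' j}` is not a square for `l ≠ l'`, `i ≠ j`,
`1 ≤ q ≤ T^8` (`T` is a bound for the degrees of the `R_i`, `T = 1` for level one). Then `C` does not
meet any special subvariety of codimension at least two: `atyp (C) = ∅`. The constant coordinates
of the special subvarieties can be special points or arbitrary numbers integral over `Λ`.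

**2. One-parameter families.** Let the equations `G_J` and the `c_i` have coefficients in `K₀[t]` for
a field `K₀ ⊂ ℂ`, the `R_i` coefficients in `K₀`. If at four numbers `t = α_l ∈ K₀` the corner
coefficients are not zero and `c_i` has a zero of the order `e_{l i}`, `e` as above, then
`atyp (C_τ) = ∅` for all transcendental `t = τ` (all `τ ∈ ℂ` not algebraic over `K₀`, for countable
`K₀` all but countably many `τ`).

**3. Almost all scalings.** Let the `G_J` and `R_i` be arbitrary polynomials over `ℂ`, with non-zero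
corner coefficients. Then `atyp (C_c) = ∅` for all vectors `c` of positive integers which are
spread out above some `D` (at four primes). This is true for a positive proportion of all vectors
`c`, and for almost all members of the families `c_i = ∏_l (k + l)^(a l i)`, `l = 0, 1, 2, 3`, with
exponents `a` as above: the number of exceptions `k ≤ H` is at most a power of `log H`. Here the
constant coordinates can be special points or integral over the ring generated by a given finite
set `Γ` of complex numbers.
-/

namespace Pool.Agent.Results.MP_e573c6_ag.FourPlaces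

open H294ZP UpperHalfPlane MvPolynomial Pool.Agent.W282.ZP

/-- A special subvariety of `Y(1)^n = ℂ^n` of dimension `r` (with more constants allowed): a map
`cls` from the coordinates onto `r` classes (`none` for constant coordinates), an integral matrix
of positive determinant for every coordinate, and a constant for every coordinate, which is a
special point or integral over `Λ`. -/
structure SpecialVariety {Λ : Type} [CommRing Λ] (f : Λ →+* ℂ) (n r : ℕ) where
  cls : Fin n → Option (Fin r)
  surj : ∀ l : Fin r, ∃ i, cls i = some l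
  mat : Fin n → Matrix (Fin 2) (Fin 2) ℤ
  det_pos : ∀ i, 0 < (mat i).det
  const : Fin n → ℂ
  allowed : ∀ i, (∃ τ : ℍ, IsCM τ ∧ const i = jj τ) ∨ f.IsIntegralElem (const i)

/-- The points of the special subvariety: the constant coordinates are the given constants, and the
coordinates of class `l` are `j (g_i z_l)`, with a free parameter `z_l` in the upper half plane. -/
def SpecialVariety.locus {Λ : Type} [CommRing Λ] {f : Λ →+* ℂ} {n r : ℕ}
    (Z : SpecialVariety f n r) : Set (Fin n → ℂ) :=
  {x | ∃ z : Fin r → ℍ, ∀ i, (Z.cls i = none → x i = Z.const i) ∧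
    ∀ l, Z.cls i = some l → ∃ w : ℍ,
      (w : ℂ) * (Z.mat i 1 0 * z l + Z.mat i 1 1) = Z.mat i 0 0 * z l + Z.mat i 0 1 ∧
      x i = jj w}

/-- `C` meets no special subvariety of codimension at least two. -/
def AtypEmpty {Λ : Type} [CommRing Λ] (f : Λ →+* ℂ) {n : ℕ} (C : Set (Fin n → ℂ)) : Prop :=
  ∀ r : ℕ, r + 2 ≤ n → ∀ Z : SpecialVariety f n r, C ∩ Z.locus = ∅

/-- The value at `(s, x)` of a polynomial `R = ∑ r_u (J) S^u` in two variables `S` and `J`. -/
noncomputable def valueAt {Λ : Type} [CommRing Λ] (f : Λ →+* ℂ) (R : Polynomial (Polynomial Λ))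
    (s x : ℂ) : ℂ :=
  Polynomial.eval₂ (Polynomial.eval₂RingHom f x) s R

/-- The points of `Y(1)^n` over which there are values `s_i` of the functions on the factors, which
satisfy the equations `G_J (c_i s_i, c_i' s_i') = 0` for all pairs `J = {i, i'}`. -/
def curve {Λ : Type} [CommRing Λ] (f : Λ →+* ℂ) {n : ℕ} (R : Fin n → Polynomial (Polynomial Λ))
    (G : ∀ J : Finset (Fin n), MvPolynomial J Λ) (c : Fin n → Λ) : Set (Fin n → ℂ) :=
  {x | ∃ s : Fin n → ℂ, (∀ i, valueAt f (R i) (s i) (x i) = 0) ∧
    ∀ J : Finset (Fin n), J.card = 2 → eval₂ f (fun j : J => f (c j) * s j) (G J) = 0}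

/-- The exponents of a corner monomial `∏_{j ∈ I} u_j^(d_j)`. -/
noncomputable def corner {σ : Type} [Fintype σ] [DecidableEq σ] (d : σ → ℕ) (I : Finset σ) :
    σ →₀ ℕ :=
  Finsupp.equivFunOnFinite.symm fun j => if j ∈ I then d j else 0

/-- The numbers `d J` bound the degrees of the equations `G J` of the pairs `J`. -/
def DegreeBounds {Λ : Type} [CommRing Λ] {n : ℕ} (G : ∀ J : Finset (Fin n), MvPolynomial J Λ)
    (d : ∀ J : Finset (Fin n), J → ℕ) : Prop :=
  ∀ J : Finset (Fin n), J.card = 2 → ∀ u ∈ (G J).support, ∀ j, u j ≤ d J j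

/-- The corner coefficients do not vanish under `red`. -/
def CornersNe {Λ F : Type} [CommRing Λ] [Field F] (red : Λ →+* F) {n : ℕ}
    (G : ∀ J : Finset (Fin n), MvPolynomial J Λ) (d : ∀ J : Finset (Fin n), J → ℕ) : Prop :=
  ∀ J : Finset (Fin n), J.card = 2 → ∀ I : Finset J, red ((G J).coeff (corner (d J) I)) ≠ 0

/-- The exponents at the places are positive and independent. -/
def IndependentExponents {n : ℕ} (T : ℕ) (e : Fin 4 → Fin n → ℕ) : Prop :=
  (∀ l i, 0 < e l i) ∧ ∀ l l', l ≠ l' → ∀ i j, i ≠ j → ∀ q, 0 < q → q ≤ T ^ 8 →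
    ¬ IsSquare (q * (e l i * e l j * (e l' i * e l' j)))

/-- A good place: a homomorphism `red` to a field under which the corner coefficients and the
non-zero coefficients of the `R i` do not vanish, such that `c i` has the exact order `e i` at the
place, `a (c i) = b ϖ ^ (e i)` with `red ϖ = 0` and `a`, `b` invertible at the place. -/
structure GoodPlace {Λ : Type} [CommRing Λ] {n : ℕ} (R : Fin n → Polynomial (Polynomial Λ))
    (G : ∀ J : Finset (Fin n), MvPolynomial J Λ) (d : ∀ J : Finset (Fin n), J → ℕ)
    (c : Fin n → Λ) (e : Fin n → ℕ) where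
  F : Type
  [field : Field F]
  red : Λ →+* F
  corners : CornersNe red G d
  coeff_ne : ∀ i u w, ((R i).coeff u).coeff w ≠ 0 → red (((R i).coeff u).coeff w) ≠ 0
  ϖ : Λ
  red_ϖ : red ϖ = 0
  order : ∀ i, ∃ a b : Λ, red a ≠ 0 ∧ red b ≠ 0 ∧ a * c i = b * ϖ ^ e i

/-- `c` is spread out above `D`: its exponents at four primes `p l > D` are independent. -/
def Spread {n : ℕ} (T D : ℕ) (c : Fin n → ℕ) : Prop :=
  ∃ p : Fin 4 → ℕ, (∀ l, (p l).Prime ∧ D < p l) ∧
    IndependentExponents T fun l i => (c i).factorization (p l)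

/-- relations between the coordinates of a point of a special subvariety -/
theorem rel_of_locus {Λ : Type} [CommRing Λ] {f : Λ →+* ℂ} {n r : ℕ} (Z : SpecialVariety f n r)
    {x : Fin n → ℂ} {z : Fin r → ℍ} (hz : ∀ i, (Z.cls i = none → x i = Z.const i) ∧
      ∀ l, Z.cls i = some l → ∃ w : ℍ,
      (w : ℂ) * (Z.mat i 1 0 * z l + Z.mat i 1 1) = Z.mat i 0 0 * z l + Z.mat i 0 1 ∧
      x i = jj w) (i j : Fin n) (l : Fin r) (hi : Z.cls i = some l) (hj : Z.cls j = some l) :
    Polynomial.eval₂ (Polynomial.aeval (x i) : Polynomial ℂ →ₐ[ℂ] ℂ).toRingHom (x j)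
      (Psi ((Z.mat i).det * (Z.mat j).det).toNat) = 0 := by
  obtain ⟨w, hw, hxw⟩ := (hz i).2 l hi
  obtain ⟨w', hw', hxw'⟩ := (hz j).2 l hj
  rw [← eval_relPoly]
  exact eval_relPoly_eq_zero (Z.det_pos i) (Z.det_pos j) hw hw' hxw hxw'

theorem main {Λ : Type} [CommRing Λ] (f : Λ →+* ℂ) (hf : Function.Injective f) {n T : ℕ}
    (R : Fin n → Polynomial (Polynomial Λ)) (hR : ∀ i, (R i).Monic)
    (hT : ∀ i u w, ((R i).coeff u).coeff w ≠ 0 → u ≤ T ∧ w ≤ T)
    (G : ∀ J : Finset (Fin n), MvPolynomial J Λ) (d : ∀ J : Finset (Fin n), J → ℕ)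
    (hd : DegreeBounds G d) (c : Fin n → Λ) (e : Fin 4 → Fin n → ℕ)
    (he : IndependentExponents T e) (P : ∀ l, GoodPlace R G d c (e l)) :
    AtypEmpty f (curve f R G c) := by
  classical
  have hdom : IsDomain Λ := hf.isDomain f
  let _ : Algebra Λ ℂ := f.toAlgebra
  let inst : ∀ l, Field (P l).F := fun l => (P l).field
  intro r hr Z
  rw [Set.eq_empty_iff_forall_notMem]
  rintro x ⟨⟨s, hs, hG⟩, z, hz⟩
  have hN : ∀ i i', 0 < ((Z.mat i).det * (Z.mat i').det).toNat := by
    intro i i'
    have := mul_pos (Z.det_pos i) (Z.det_pos i')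
    omega
  refine TH526.ZL.criterionCurve hf R hR hT c (fun l => RingHom.ker (P l).red)
    (fun l => RingHom.ker_isPrime (P l).red) G d hd (fun l J hJ I => (P l).corners J hJ I)
    (fun l i u w h0 => (P l).coeff_ne i u w h0) (fun l => (P l).ϖ) (fun l => (P l).red_ϖ) e he.1
    (fun l i => (P l).order i) he.2 hr Z.cls
    (fun i i' => ((Z.mat i).det * (Z.mat i').det).toNat) x s hN ?_
    (fun i j l hi hj => rel_of_locus Z hz i j l hi hj) hs hG
  intro i hi
  rw [(hz i).1 hi]
  rcases Z.allowed i with ⟨τ, hτ, hc⟩ | h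
  · rw [hc]
    exact (singular_modulus_integral τ hτ).tower_top
  · exact h

/-- the value of a polynomial at a complex number -/
noncomputable def evalAt (K₀ : Subfield ℂ) (z : ℂ) : Polynomial K₀ →+* ℂ :=
  (Polynomial.aeval z : Polynomial K₀ →ₐ[K₀] ℂ).toRingHom

/-- The three parts are the criterion at four places, the transcendental members of one-parameter
families, and almost all scalings of a curve. -/
theorem result :
    (∀ (Λ : Type) [CommRing Λ] (f : Λ →+* ℂ), Function.Injective f → ∀ (n T : ℕ)
      (R : Fin n → Polynomial (Polynomial Λ)), (∀ i, (R i).Monic) →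
      (∀ i u w, ((R i).coeff u).coeff w ≠ 0 → u ≤ T ∧ w ≤ T) →
      ∀ (G : ∀ J : Finset (Fin n), MvPolynomial J Λ) (d : ∀ J : Finset (Fin n), J → ℕ),
      DegreeBounds G d → ∀ (c : Fin n → Λ) (e : Fin 4 → Fin n → ℕ), IndependentExponents T e →
      (∀ l, Nonempty (GoodPlace R G d c (e l))) → AtypEmpty f (curve f R G c)) ∧
    (∀ (K₀ : Subfield ℂ) (n T : ℕ) (R : Fin n → Polynomial (Polynomial K₀)), (∀ i, (R i).Monic) →
      (∀ i u w, ((R i).coeff u).coeff w ≠ 0 → u ≤ T ∧ w ≤ T) →
      ∀ (G : ∀ J : Finset (Fin n), MvPolynomial J (Polynomial K₀))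
      (d : ∀ J : Finset (Fin n), J → ℕ), DegreeBounds G d →
      ∀ (c : Fin n → Polynomial K₀) (α : Fin 4 → K₀),
      IndependentExponents T (fun l i => (c i).rootMultiplicity (α l)) →
      (∀ l, CornersNe (evalAt K₀ (α l)) G d) →
      ∀ τ : ℂ, Transcendental K₀ τ → AtypEmpty (evalAt K₀ τ) (curve (evalAt K₀ τ)
        (fun i => (R i).map (Polynomial.mapRingHom Polynomial.C)) G c)) ∧
    (∀ (n T : ℕ) (R : Fin n → Polynomial (Polynomial ℂ)), (∀ i, (R i).Monic) →
      (∀ i u w, ((R i).coeff u).coeff w ≠ 0 → u ≤ T ∧ w ≤ T) →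
      ∀ (G : ∀ J : Finset (Fin n), MvPolynomial J ℂ) (d : ∀ J : Finset (Fin n), J → ℕ),
      DegreeBounds G d → CornersNe (RingHom.id ℂ) G d → ∀ Γ : Finset ℂ, ∃ D : ℕ,
      (∀ c : Fin n → ℕ, Spread T D c →
        AtypEmpty (algebraMap (Algebra.adjoin ℤ (Γ : Set ℂ)) ℂ)
          (curve (RingHom.id ℂ) R G fun i => (c i : ℂ))) ∧
      (∃ δ : ℝ, 0 < δ ∧ ∃ H₀ : ℕ, ∀ H : ℕ, H₀ ≤ H → δ * (H : ℝ) ^ n ≤
        (Set.ncard {c : Fin n → ℕ | (∀ i, 1 ≤ c i ∧ c i ≤ H) ∧
          AtypEmpty (algebraMap (Algebra.adjoin ℤ (Γ : Set ℂ)) ℂ)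
            (curve (RingHom.id ℂ) R G fun i => (c i : ℂ))} : ℝ)) ∧
      ∀ a : Fin 4 → Fin n → ℕ, IndependentExponents T a → ∀ H : ℕ,
        Set.ncard {k : ℕ | 1 ≤ k ∧ k ≤ H ∧
          ¬ AtypEmpty (algebraMap (Algebra.adjoin ℤ (Γ : Set ℂ)) ℂ)
            (curve (RingHom.id ℂ) R G fun i => ((∏ l : Fin 4, (k + (l : ℕ)) ^ a l i : ℕ) : ℂ))} ≤
          4 * (Nat.log 2 (H + 4) + 1) ^ (D + 5)) := by
  classical
  refine ⟨?_, ?_, ?_⟩
  · intro Λ _ f hf n T R hR hT G d hd c e he P
    exact main f hf R hR hT G d hd c e he fun l => (P l).some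
  · intro K₀ n T R hR hT G d hd c α he hcor τ hτ
    have hf : Function.Injective (evalAt K₀ τ) := transcendental_iff_injective.1 hτ
    refine main (evalAt K₀ τ) hf _ (fun i => (hR i).map _) ?_ G d hd c
      (fun l i => (c i).rootMultiplicity (α l)) he fun l => ?_
    · intro i u w h0
      rw [Polynomial.coeff_map, Polynomial.coe_mapRingHom, Polynomial.coeff_map] at h0
      exact hT i u w fun h1 => h0 (by rw [h1, map_zero])
    · have hev : ∀ a : K₀, evalAt K₀ (α l) (Polynomial.C a) = (a : ℂ) := by
        intro a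
        show Polynomial.aeval _ (Polynomial.C a) = _
        rw [Polynomial.aeval_C]
        rfl
      have hev2 : ∀ p : Polynomial K₀, evalAt K₀ (α l) p = ((p.eval (α l) : K₀) : ℂ) := by
        intro p
        show Polynomial.aeval (algebraMap K₀ ℂ (α l)) p = _
        rw [Polynomial.aeval_algebraMap_apply]
        rfl
      exact
        { F := ℂ
          red := evalAt K₀ (α l)
          corners := hcor l
          coeff_ne := by
            intro i u w h0
            rw [Polynomial.coeff_map, Polynomial.coe_mapRingHom, Polynomial.coeff_map] at h0 ⊢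
            rw [hev]
            intro h1
            apply h0
            rw [show ((R i).coeff u).coeff w = 0 from Subtype.ext h1, map_zero]
          ϖ := Polynomial.X - Polynomial.C (α l)
          red_ϖ := by
            rw [hev2, Polynomial.eval_sub, Polynomial.eval_X, Polynomial.eval_C, sub_self]
            rfl
          order := by
            intro i
            have hc0 : c i ≠ 0 := by
              intro h0
              have := he.1 l i
              change 0 < (c i).rootMultiplicity (α l) at this
              rw [h0, Polynomial.rootMultiplicity_zero] at this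
              exact lt_irrefl _ this
            obtain ⟨q, hq1, hq2⟩ :=
              Polynomial.exists_eq_pow_rootMultiplicity_mul_and_not_dvd (c i) hc0 (α l)
            refine ⟨1, q, ?_, ?_, ?_⟩
            · rw [map_one]
              exact one_ne_zero
            · rw [hev2]
              intro h1
              apply hq2
              rw [Polynomial.dvd_iff_isRoot, Polynomial.IsRoot.def]
              exact Subtype.ext h1
            · rw [one_mul]
              conv_lhs => rw [hq1]
              ring }
  · intro n T R hR hT G d hd hcor Γ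
    obtain ⟨D, hD⟩ := TH526.ZL.curveD R hR hT G d hd hcor Γ
    have hspr : ∀ c : Fin n → ℕ, Spread T D c ↔ TH526.ZL.SpreadQ 4 T D c := fun c => Iff.rfl
    have h1 : ∀ c : Fin n → ℕ, Spread T D c →
        AtypEmpty (algebraMap (Algebra.adjoin ℤ (Γ : Set ℂ)) ℂ)
          (curve (RingHom.id ℂ) R G fun i => (c i : ℂ)) := by
      intro c hc r hr Z
      rw [Set.eq_empty_iff_forall_notMem]
      rintro x ⟨⟨s, hs, hG⟩, z, hz⟩
      have hN : ∀ i i', 0 < ((Z.mat i).det * (Z.mat i').det).toNat := by
        intro i i'
        have := mul_pos (Z.det_pos i) (Z.det_pos i')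
        omega
      refine hD c ((hspr c).1 hc) r hr Z.cls
        (fun i i' => ((Z.mat i).det * (Z.mat i').det).toNat) x s hN ?_
        (fun i j l hi hj => rel_of_locus Z hz i j l hi hj) ?_ ?_
      · intro i hi
        rw [(hz i).1 hi]
        rcases Z.allowed i with ⟨τ, hτ, hc⟩ | h
        · rw [hc]
          exact (singular_modulus_integral τ hτ).tower_top
        · exact h
      · exact hs
      · exact hG
    refine ⟨D, h1, ?_, ?_⟩
    · obtain ⟨δ, hδ, H₀, hH⟩ := TH526.ZL.propQ n 4 T D (by norm_num)
      refine ⟨δ, hδ, H₀, fun H hHH => (hH H hHH).trans ?_⟩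
      have hfin : {c : Fin n → ℕ | (∀ i, 1 ≤ c i ∧ c i ≤ H) ∧
          AtypEmpty (algebraMap (Algebra.adjoin ℤ (Γ : Set ℂ)) ℂ)
            (curve (RingHom.id ℂ) R G fun i => (c i : ℂ))}.Finite := by
        refine (Set.Finite.pi fun _ : Fin n => Set.finite_Icc 1 H).subset ?_
        rintro c ⟨hc, -⟩ i -
        exact Set.mem_Icc.2 (hc i)
      have hsub : {c : Fin n → ℕ | (∀ i, 1 ≤ c i ∧ c i ≤ H) ∧ TH526.ZL.SpreadQ 4 T D c} ⊆
          {c : Fin n → ℕ | (∀ i, 1 ≤ c i ∧ c i ≤ H) ∧
            AtypEmpty (algebraMap (Algebra.adjoin ℤ (Γ : Set ℂ)) ℂ)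
              (curve (RingHom.id ℂ) R G fun i => (c i : ℂ))} :=
        fun c hc => ⟨hc.1, h1 c ((hspr c).2 hc.2)⟩
      have h2 := Set.ncard_le_ncard hsub hfin
      exact_mod_cast h2
    · intro a ha H
      refine (Set.ncard_le_ncard ?_ ?_).trans (TH526.ZL.countQ (L := 4) (T := T) D a ⟨ha.1, ha.2⟩ H)
      · rintro k ⟨hk1, hk2, hk3⟩
        exact ⟨hk1, hk2, fun hs => hk3 (h1 _ ((hspr _).2 hs))⟩
      · exact (Set.finite_Icc 1 H).subset fun k hk => ⟨hk.1, hk.2.1⟩

end Pool.Agent.Results.MP_e573c6_ag.FourPlaces
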